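import Mathlib

/-!
# Row FINE of the board kslo: a common fine scale for finitely many blocks

`f` is monotone and `1`-Lipschitz. At one of boundedly many scales, every one of `M` blocks of
length `L` where the mean slope of `f` is at most `1 - c` contains `2 B + 1` consecutive cells of
the scale where the slope is at most `1 - c / 2`.
-/

set_option autoImplicit false

namespace Pool.SLO

open Finset

namespace FineAux

/-- Variance identity. -/
theorem var (q : ℕ) (hq : 0 < q) (u : ℕ → ℝ) :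
    ∑ b ∈ range q, (u b - (∑ b ∈ range q, u b) / q) ^ 2 =
      ∑ b ∈ range q, u b ^ 2 - (∑ b ∈ range q, u b) ^ 2 / q := by
  set m := (∑ b ∈ range q, u b) / q with hm
  have hq' : (q : ℝ) ≠ 0 := by positivity
  have h1 : ∑ b ∈ range q, u b = q * m := by rw [hm]; field_simp
  have h2 : ∑ b ∈ range q, (u b - m) ^ 2 =
      ∑ b ∈ range q, u b ^ 2 - 2 * m * ∑ b ∈ range q, u b + q * m ^ 2 := by
    have : ∀ b ∈ range q, (u b - m) ^ 2 = u b ^ 2 - 2 * m * u b + m ^ 2 := fun b _ => by ring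
    rw [Finset.sum_congr rfl this, Finset.sum_add_distrib, Finset.sum_sub_distrib,
      ← Finset.mul_sum, Finset.sum_const, card_range, nsmul_eq_mul]
  rw [h2, h1]
  field_simp
  ring

/-- Sum over the children. -/
theorem sum_mul_range (q m : ℕ) (F : ℕ → ℝ) :
    ∑ x ∈ range (m * q), F x = ∑ a ∈ range m, ∑ b ∈ range q, F (a * q + b) := by
  induction m with
  | zero => simp
  | succ m ih =>
    rw [Nat.succ_mul, Finset.sum_range_add, ih, Finset.sum_range_succ]

/-- Increment of a function over the cell number `a` of length `h` after `x`. -/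
def inc (f : ℕ → ℝ) (x h a : ℕ) : ℝ := f (x + (a + 1) * h) - f (x + a * h)

theorem inc_sum (f : ℕ → ℝ) (x h m : ℕ) :
    ∑ a ∈ range m, inc f x h a = f (x + m * h) - f x := by
  unfold inc
  have := Finset.sum_range_sub (fun a => f (x + a * h)) m
  simpa using this

theorem inc_parent (f : ℕ → ℝ) (x h q a : ℕ) :
    ∑ b ∈ range q, inc f x h (a * q + b) = inc f x (q * h) a := by
  unfold inc
  have h1 := Finset.sum_range_sub (fun b => f (x + (a * q + b) * h)) q
  have e1 : x + (a * q + q) * h = x + (a + 1) * (q * h) := by ring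
  have e2 : x + (a * q + 0) * h = x + a * (q * h) := by ring
  simp only [e1, e2] at h1
  rw [← h1]
  exact Finset.sum_congr rfl fun b _ => by rw [add_assoc]

theorem inc_nonneg {f : ℕ → ℝ} (hf : Monotone f) (x h a : ℕ) : 0 ≤ inc f x h a :=
  sub_nonneg.2 (hf (Nat.add_le_add_left (Nat.mul_le_mul_right h (Nat.le_succ a)) x))

theorem lip {f : ℕ → ℝ} (h1 : ∀ n, f (n + 1) ≤ f n + 1) (x k : ℕ) : f (x + k) ≤ f x + k := by
  induction k with
  | zero => simp
  | succ k ih =>
    have := h1 (x + k)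
    push_cast
    rw [← add_assoc] at *
    linarith

theorem inc_le {f : ℕ → ℝ} (h1 : ∀ n, f (n + 1) ≤ f n + 1) (x h a : ℕ) : inc f x h a ≤ h := by
  unfold inc
  have h2 := lip h1 (x + a * h) h
  have e : x + a * h + h = x + (a + 1) * h := by ring
  rw [e] at h2
  linarith

/-- The energy of a block of `m` cells of length `h`. -/
noncomputable def en (f : ℕ → ℝ) (x h m : ℕ) : ℝ := ∑ a ∈ range m, inc f x h a ^ 2 / h

theorem en_nonneg (f : ℕ → ℝ) (x h m : ℕ) : 0 ≤ en f x h m :=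
  Finset.sum_nonneg fun _ _ => by positivity

theorem en_le {f : ℕ → ℝ} (hf : Monotone f) (h1 : ∀ n, f (n + 1) ≤ f n + 1) {x h m : ℕ}
    (hh : 0 < h) : en f x h m ≤ m * h := by
  unfold en
  have h2 : ∀ a ∈ range m, inc f x h a ^ 2 / h ≤ h := by
    intro a _
    have a1 := inc_nonneg hf x h a
    have a2 := inc_le h1 x h a
    have hh' : (0 : ℝ) < h := by exact_mod_cast hh
    rw [div_le_iff₀ hh']
    nlinarith
  refine (Finset.sum_le_sum h2).trans (le_of_eq ?_)
  rw [Finset.sum_const, card_range, nsmul_eq_mul]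

/-- The energy increment. -/
theorem en_step (f : ℕ → ℝ) (x h q m : ℕ) (hh : 0 < h) (hq : 0 < q) :
    en f x h (m * q) - en f x (q * h) m =
      ∑ a ∈ range m, (∑ b ∈ range q, (inc f x h (a * q + b) - inc f x (q * h) a / q) ^ 2) / h := by
  unfold en
  have hh' : (h : ℝ) ≠ 0 := by positivity
  have hq' : (q : ℝ) ≠ 0 := by positivity
  rw [sum_mul_range, ← Finset.sum_sub_distrib]
  refine Finset.sum_congr rfl fun a _ => ?_
  have h1 := var q hq (fun b => inc f x h (a * q + b))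
  rw [inc_parent] at h1
  rw [h1, ← Finset.sum_div]
  push_cast
  field_simp

theorem en_mono (f : ℕ → ℝ) (x h q m : ℕ) (hh : 0 < h) (hq : 0 < q) :
    en f x (q * h) m ≤ en f x h (m * q) := by
  have h1 := en_step f x h q m hh hq
  have h2 : 0 ≤ ∑ a ∈ range m,
      (∑ b ∈ range q, (inc f x h (a * q + b) - inc f x (q * h) a / q) ^ 2) / (h : ℝ) :=
    Finset.sum_nonneg fun _ _ => by positivity
  linarith

/-- A block without good cells has a large energy increment. -/
theorem en_bad {f : ℕ → ℝ} (hf : Monotone f) {c : ℝ} (hc : 0 < c) (x h q m : ℕ) (hh : 0 < h)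
    (hq : 0 < q) (hblock : f (x + m * (q * h)) - f x ≤ (1 - c) * (m * (q * h)))
    (hbad : ∀ a < m, ∃ b < q, (1 - c / 2) * h < inc f x h (a * q + b)) :
    c ^ 3 / (64 * q) * (m * (q * h)) ≤ en f x h (m * q) - en f x (q * h) m := by
  rw [en_step f x h q m hh hq]
  have hh' : (0 : ℝ) < h := by exact_mod_cast hh
  have hq' : (0 : ℝ) < q := by exact_mod_cast hq
  have h1 : ∀ a ∈ range m, c ^ 2 / 16 * (h * (1 - 3 * c / 4) - inc f x (q * h) a / q) ≤
      (∑ b ∈ range q, (inc f x h (a * q + b) - inc f x (q * h) a / q) ^ 2) / h := by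
    intro a ha
    rw [Finset.mem_range] at ha
    set P := inc f x (q * h) a / q with hP
    have hP0 : 0 ≤ P := div_nonneg (inc_nonneg hf _ _ _) hq'.le
    have hS : 0 ≤ (∑ b ∈ range q, (inc f x h (a * q + b) - P) ^ 2) / (h : ℝ) := by positivity
    rcases le_or_gt (h * (1 - 3 * c / 4) - P) 0 with h2 | h2
    · have : c ^ 2 / 16 * (h * (1 - 3 * c / 4) - P) ≤ 0 :=
        mul_nonpos_of_nonneg_of_nonpos (by positivity) h2
      linarith
    · obtain ⟨b, hb, hb2⟩ := hbad a ha
      have h3 : c / 4 * h ≤ inc f x h (a * q + b) - P := by linarith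
      have h4 : (c / 4 * h) ^ 2 ≤ (inc f x h (a * q + b) - P) ^ 2 :=
        pow_le_pow_left₀ (by positivity) h3 2
      have h5 : (inc f x h (a * q + b) - P) ^ 2 ≤
          ∑ b ∈ range q, (inc f x h (a * q + b) - P) ^ 2 :=
        Finset.single_le_sum (f := fun b => (inc f x h (a * q + b) - P) ^ 2)
          (fun _ _ => sq_nonneg _) (Finset.mem_range.2 hb)
      rw [le_div_iff₀ hh']
      have h6 : h * (1 - 3 * c / 4) - P ≤ h := by nlinarith
      have h7 : c ^ 2 / 16 * (h * (1 - 3 * c / 4) - P) * h ≤ c ^ 2 / 16 * h * h := by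
        have := mul_le_mul_of_nonneg_left h6 (show 0 ≤ c ^ 2 / 16 * h by positivity)
        nlinarith
      have h8 : (c / 4 * h) ^ 2 = c ^ 2 / 16 * h * h := by ring
      linarith
  refine le_trans ?_ (Finset.sum_le_sum h1)
  have h2 : ∑ a ∈ range m, c ^ 2 / 16 * (h * (1 - 3 * c / 4) - inc f x (q * h) a / q) =
      c ^ 2 / 16 * (m * (h * (1 - 3 * c / 4)) - (f (x + m * (q * h)) - f x) / q) := by
    rw [← inc_sum f x (q * h) m, ← Finset.mul_sum, Finset.sum_sub_distrib, Finset.sum_const,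
      card_range, nsmul_eq_mul, Finset.sum_div]
  rw [h2]
  have h3 : (f (x + m * (q * h)) - f x) / q ≤ (1 - c) * (m * h) := by
    rw [div_le_iff₀ hq']
    linarith
  have h4 : c ^ 3 / (64 * q) * (m * (q * h)) = c ^ 2 / 16 * (c / 4 * (m * h)) := by
    field_simp
    ring
  rw [h4]
  refine mul_le_mul_of_nonneg_left ?_ (by positivity)
  nlinarith

end FineAux

open FineAux

/-- The common scale, powers of `q`. -/
theorem fine_q {f : ℕ → ℝ} (hf : Monotone f) (h1 : ∀ n, f (n + 1) ≤ f n + 1) {c : ℝ} (hc : 0 < c)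
    (M q I h₀ : ℕ) (hq : 0 < q) (hh : 0 < h₀) (hI : 64 * q * M < c ^ 3 * I) :
    ∃ n < I, ∀ l < M, f ((l + 1) * (q ^ I * h₀)) - f (l * (q ^ I * h₀)) ≤
      (1 - c) * (q ^ I * h₀) → ∃ a < q ^ (I - n - 1), ∀ b < q,
        inc f (l * (q ^ I * h₀)) (q ^ n * h₀) (a * q + b) ≤ (1 - c / 2) * (q ^ n * h₀) := by
  by_contra hcon
  push Not at hcon
  have hq' : (0 : ℝ) < q := by exact_mod_cast hq
  set L := q ^ I * h₀ with hL
  have hL' : (0 : ℝ) < L := by
    rw [hL]
    positivity
  -- the energy of all the blocks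
  set E : ℕ → ℝ := fun n => ∑ l ∈ range M, en f (l * L) (q ^ n * h₀) (q ^ (I - n)) with hE
  have hstep : ∀ n < I, c ^ 3 / (64 * q) * L ≤ E n - E (n + 1) := by
    intro n hn
    obtain ⟨l, hl, hblk, hbad⟩ := hcon n hn
    have e1 : q ^ (I - n) = q ^ (I - n - 1) * q := by
      rw [← pow_succ]
      congr 1
      omega
    have e2 : q ^ (n + 1) * h₀ = q * (q ^ n * h₀) := by ring
    have e3 : I - (n + 1) = I - n - 1 := by omega
    have e4 : q ^ (I - n - 1) * (q * (q ^ n * h₀)) = L := by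
      rw [hL]
      have : q ^ (I - n - 1) * (q * (q ^ n * h₀)) = q ^ (I - n - 1 + 1 + n) * h₀ := by
        rw [pow_add, pow_add, pow_one]
        ring
      rw [this]
      congr 2
      omega
    have e4' : ((q ^ (I - n - 1) : ℕ) : ℝ) * (q * ((q ^ n * h₀ : ℕ) : ℝ)) = L := by
      rw [← e4]
      push_cast
      ring
    have hpos : 0 < q ^ n * h₀ := by positivity
    simp only [hE]
    rw [← Finset.sum_sub_distrib]
    have h2 : ∀ l ∈ range M, 0 ≤ en f (l * L) (q ^ n * h₀) (q ^ (I - n)) -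
        en f (l * L) (q ^ (n + 1) * h₀) (q ^ (I - (n + 1))) := by
      intro l _
      rw [e1, e2, e3]
      have := en_mono f (l * L) (q ^ n * h₀) q (q ^ (I - n - 1)) hpos hq
      linarith
    refine le_trans ?_ (Finset.single_le_sum h2 (Finset.mem_range.2 hl))
    rw [e1, e2, e3]
    have h3 := en_bad hf hc (l * L) (q ^ n * h₀) q (q ^ (I - n - 1)) hpos hq (by
      rw [e4, e4']
      have e5 : l * L + L = (l + 1) * L := by ring
      rw [e5]
      have e6 : ((q : ℝ) ^ I * h₀) = (L : ℝ) := by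
        rw [hL]
        push_cast
        ring
      rw [← e6]
      exact hblk) (by
      intro a ha
      obtain ⟨b, hb, hb2⟩ := hbad a ha
      refine ⟨b, hb, ?_⟩
      push_cast
      exact hb2)
    rw [e4'] at h3
    exact h3
  have hsum : (I : ℝ) * (c ^ 3 / (64 * q) * L) ≤ E 0 - E I := by
    have h2 : ∑ n ∈ range I, (E n - E (n + 1)) = E 0 - E I := Finset.sum_range_sub' E I
    rw [← h2]
    have h3 : ∑ _n ∈ range I, (c ^ 3 / (64 * q) * L) ≤ ∑ n ∈ range I, (E n - E (n + 1)) :=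
      Finset.sum_le_sum fun n hn => hstep n (Finset.mem_range.1 hn)
    rw [Finset.sum_const, card_range, nsmul_eq_mul] at h3
    exact h3
  have hE0 : E 0 ≤ M * L := by
    simp only [hE]
    have h2 : ∀ l ∈ range M, en f (l * L) (q ^ 0 * h₀) (q ^ (I - 0)) ≤ L := by
      intro l _
      rw [pow_zero, one_mul, Nat.sub_zero]
      refine (en_le hf h1 hh).trans (le_of_eq ?_)
      rw [hL]
      push_cast
      ring
    refine (Finset.sum_le_sum h2).trans (le_of_eq ?_)
    rw [Finset.sum_const, card_range, nsmul_eq_mul]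
  have hEI : 0 ≤ E I := Finset.sum_nonneg fun _ _ => en_nonneg _ _ _ _
  have h3 : (I : ℝ) * (c ^ 3 / (64 * q)) * L ≤ M * L := by linarith
  have h4 : (I : ℝ) * (c ^ 3 / (64 * q)) ≤ M := le_of_mul_le_mul_right h3 hL'
  have h5 : (I : ℝ) * c ^ 3 ≤ M * (64 * q) := by
    have e : (I : ℝ) * (c ^ 3 / (64 * q)) = I * c ^ 3 / (64 * q) := by ring
    rw [e, div_le_iff₀ (by positivity)] at h4
    exact h4
  linarith

/-- **Row FINE.** -/
theorem fine {c : ℝ} (hc : 0 < c) (B r M : ℕ) (hr : 2 ≤ r) : ∃ j₀ : ℕ, ∀ (f : ℕ → ℝ) (L : ℕ),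
    Monotone f → (∀ n, f (n + 1) ≤ f n + 1) → 0 < L → r ^ (j₀ + 1) ∣ L →
    ∃ j ≤ j₀, ∀ l < M, f ((l + 1) * L) - f (l * L) ≤ (1 - c) * L →
      ∃ R' : ℕ, L / r ^ (j + 1) ∣ R' ∧ l * L + B * (L / r ^ (j + 1)) ≤ R' ∧
        R' + (B + 1) * (L / r ^ (j + 1)) ≤ (l + 1) * L ∧
        ∀ i ≤ 2 * B, f (R' - B * (L / r ^ (j + 1)) + (i + 1) * (L / r ^ (j + 1))) -
          f (R' - B * (L / r ^ (j + 1)) + i * (L / r ^ (j + 1))) ≤
            (1 - c / 2) * ((L / r ^ (j + 1) : ℕ) : ℝ) := by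
  set t := 2 * B + 1 with ht
  set q := r ^ t with hq
  have hq0 : 0 < q := by positivity
  have hqB : 2 * B + 1 ≤ q := by
    calc 2 * B + 1 ≤ 2 ^ t := Nat.lt_two_pow_self.le
      _ ≤ r ^ t := Nat.pow_le_pow_left hr t
  obtain ⟨I, hI⟩ := exists_nat_gt (64 * (q : ℝ) * M / c ^ 3)
  have hI' : 64 * (q : ℝ) * M < c ^ 3 * I := by
    rw [div_lt_iff₀ (by positivity)] at hI
    linarith
  have hI0 : 0 < I := by
    rcases Nat.eq_zero_or_pos I with h | h
    · rw [h, Nat.cast_zero, mul_zero] at hI'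
      have : 0 ≤ 64 * (q : ℝ) * M := by positivity
      linarith
    · exact h
  refine ⟨t * I - 1, ?_⟩
  intro f L hf h1 hL hdvd
  have htI : t * I - 1 + 1 = t * I := by
    have : 0 < t * I := by positivity
    omega
  rw [htI] at hdvd
  obtain ⟨h₀, hh₀⟩ := hdvd
  have hLq : L = q ^ I * h₀ := by rw [hh₀, hq, ← pow_mul]
  have hh : 0 < h₀ := by
    rcases Nat.eq_zero_or_pos h₀ with h | h
    · rw [h, mul_zero] at hh₀
      omega
    · exact h
  obtain ⟨n, hn, key⟩ := fine_q hf h1 hc M q I h₀ hq0 hh hI'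
  have hlen : 0 < t * (I - n) := by
    have : 0 < I - n := by omega
    positivity
  have hle : t * (I - n) ≤ t * I := Nat.mul_le_mul_left t (by omega)
  refine ⟨t * (I - n) - 1, by omega, ?_⟩
  have e1 : t * (I - n) - 1 + 1 = t * (I - n) := by omega
  rw [e1]
  have e2 : L / r ^ (t * (I - n)) = q ^ n * h₀ := by
    have : L = r ^ (t * (I - n)) * (q ^ n * h₀) := by
      rw [hLq, hq, ← pow_mul, ← pow_mul, ← mul_assoc, ← pow_add, ← mul_add]
      congr 3
      omega
    rw [this]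
    exact Nat.mul_div_cancel_left _ (by positivity)
  rw [e2]
  set h := q ^ n * h₀ with hh'
  intro l hl hblk
  obtain ⟨a, ha, hgood⟩ := key l hl (by
    rw [← hLq]
    have e3 : ((q : ℝ) ^ I * h₀) = (L : ℝ) := by
      rw [hLq]
      push_cast
      ring
    rw [e3]
    exact hblk)
  rw [← hLq] at hgood
  have hLh : L = q ^ (I - n) * h := by
    rw [hLq, hh', ← mul_assoc, ← pow_add]
    congr 2
    omega
  have haq : (a + 1) * q ≤ q ^ (I - n) := by
    have e4 : q ^ (I - n) = q ^ (I - n - 1) * q := by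
      rw [← pow_succ]
      congr 1
      omega
    rw [e4]
    exact Nat.mul_le_mul_right q ha
  refine ⟨l * L + (a * q + B) * h, ?_, ?_, ?_, ?_⟩
  · refine Dvd.dvd.add ?_ (Dvd.intro_left _ rfl)
    rw [hLh]
    exact Dvd.intro_left (l * q ^ (I - n)) (by ring)
  · have : B * h ≤ (a * q + B) * h := Nat.mul_le_mul_right h (by omega)
    omega
  · have e5 : l * L + (a * q + B) * h + (B + 1) * h = l * L + (a * q + (2 * B + 1)) * h := by ring
    have e6 : (a * q + (2 * B + 1)) * h ≤ L := by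
      rw [hLh]
      refine Nat.mul_le_mul_right h ?_
      calc a * q + (2 * B + 1) ≤ a * q + q := by omega
        _ = (a + 1) * q := by ring
        _ ≤ _ := haq
    have e7 : (l + 1) * L = l * L + L := by ring
    omega
  · intro i hi
    have e8 : l * L + (a * q + B) * h - B * h = l * L + a * q * h := by
      have : l * L + (a * q + B) * h = l * L + a * q * h + B * h := by ring
      omega
    rw [e8]
    have h5 := hgood i (by omega)
    unfold inc at h5
    have e9 : l * L + a * q * h + (i + 1) * h = l * L + (a * q + i + 1) * h := by ring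
    have e10 : l * L + a * q * h + i * h = l * L + (a * q + i) * h := by ring
    rw [e9, e10]
    have e11 : ((h : ℕ) : ℝ) = (q : ℝ) ^ n * h₀ := by
      rw [hh']
      push_cast
      ring
    rw [e11]
    exact h5

/-- Row FINE with integer shifts. -/
theorem fine_int {c : ℝ} (hc : 0 < c) (B r M : ℕ) (hr : 2 ≤ r) :
    ∃ j₀ : ℕ, ∀ (f : ℕ → ℝ) (L : ℕ),
    Monotone f → (∀ n, f (n + 1) ≤ f n + 1) → 0 < L → r ^ (j₀ + 1) ∣ L →
    ∃ j ≤ j₀, ∀ l < M, f ((l + 1) * L) - f (l * L) ≤ (1 - c) * L →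
      ∃ R' : ℕ, L / r ^ (j + 1) ∣ R' ∧ l * L + B * (L / r ^ (j + 1)) ≤ R' ∧
        R' + (B + 1) * (L / r ^ (j + 1)) ≤ (l + 1) * L ∧
        ∀ i : ℤ, |i| ≤ B → f (R' + (i + 1) * ((L / r ^ (j + 1) : ℕ) : ℤ)).toNat -
          f (R' + i * ((L / r ^ (j + 1) : ℕ) : ℤ)).toNat ≤
            (1 - c / 2) * ((L / r ^ (j + 1) : ℕ) : ℝ) := by
  obtain ⟨j₀, hj₀⟩ := fine hc B r M hr
  refine ⟨j₀, fun f L hf h1 hL hd => ?_⟩
  obtain ⟨j, hj, hk⟩ := hj₀ f L hf h1 hL hd
  refine ⟨j, hj, fun l hl hb => ?_⟩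
  obtain ⟨R', hR1, hR2, hR3, hR4⟩ := hk l hl hb
  refine ⟨R', hR1, hR2, hR3, fun i hi => ?_⟩
  set h := L / r ^ (j + 1) with hh
  rw [abs_le] at hi
  obtain ⟨m, hm⟩ := Int.eq_ofNat_of_zero_le (show 0 ≤ i + B by linarith [hi.1])
  have hm2 : m ≤ 2 * B := by
    have : (m : ℤ) ≤ 2 * B := by rw [← hm]; linarith [hi.2]
    exact_mod_cast this
  have hi' : i = (m : ℤ) - B := by linarith
  have h4 := hR4 m hm2
  have hBh : B * h ≤ R' := by omega
  have e1 : (R' + (i + 1) * (h : ℤ)).toNat = R' - B * h + (m + 1) * h := by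
    have : (R' + (i + 1) * (h : ℤ)) = ((R' - B * h + (m + 1) * h : ℕ) : ℤ) := by
      push_cast [Nat.cast_sub hBh]
      rw [hi']
      ring
    rw [this, Int.toNat_natCast]
  have e2 : (R' + i * (h : ℤ)).toNat = R' - B * h + m * h := by
    have : (R' + i * (h : ℤ)) = ((R' - B * h + m * h : ℕ) : ℤ) := by
      push_cast [Nat.cast_sub hBh]
      rw [hi']
      ring
    rw [this, Int.toNat_natCast]
  rw [e1, e2]
  exact h4

end Pool.SLO
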